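import Pool.Agent.W_MP_56a3d2_al.Words

set_option autoImplicit false
set_option linter.unusedSectionVars false

/-! The cube complex attached to local data, with vertex set the group itself. -/

namespace Pool.Agent.W_MP_56a3d2_al

namespace LocalData

variable {D G : Type} [Group G] (L : LocalData D G) [DecidableEq D]

/-- The (vertex set of the) cube with base vertex `g` spanned by `α`. -/
def cubeSet (g : G) (α : Finset D) : Set G := {y | ∃ γ, γ ⊆ α ∧ y = g * L.X γ}

lemma self_mem_cubeSet (g : G) (α : Finset D) : g ∈ L.cubeSet g α :=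
  ⟨∅, Finset.empty_subset _, by simp⟩

lemma cubeSet_mono (g : G) {α β : Finset D} (h : α ⊆ β) : L.cubeSet g α ⊆ L.cubeSet g β := by
  rintro y ⟨γ, hγ, rfl⟩
  exact ⟨γ, hγ.trans h, rfl⟩

lemma clique_empty : L.Clique ∅ := by intro d hd; simp at hd

lemma clique_singleton (d : D) : L.Clique {d} := by
  intro a ha b hb hab
  simp at ha hb
  exact absurd (ha.trans hb.symm) hab

lemma cubeSet_empty (g : G) : L.cubeSet g ∅ = {g} := by
  ext y
  simp only [cubeSet, Finset.subset_empty, Set.mem_ofPred_eq, Set.mem_singleton_iff]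
  constructor
  · rintro ⟨γ, rfl, rfl⟩; simp
  · rintro rfl; exact ⟨∅, rfl, by simp⟩

lemma symmDiff_cancel_self (β γ : Finset D) : symmDiff β (symmDiff β γ) = γ := by
  rw [← symmDiff_assoc, symmDiff_self]; simp

lemma symmDiff_subset {α β γ : Finset D} (hβ : β ⊆ α) (hγ : γ ⊆ α) : symmDiff β γ ⊆ α := by
  intro x hx
  rw [Finset.mem_symmDiff] at hx
  rcases hx with hx | hx
  · exact hβ hx.1
  · exact hγ hx.1

lemma exists_rebase {α β : Finset D} (hα : L.Clique α) (hβ : β ⊆ α) :
    ∃ ρ : D → D, Set.InjOn ρ α ∧ L.Clique (α.image ρ) ∧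
      (∀ γ ⊆ α, L.X β * L.X (γ.image ρ) = L.X (symmDiff β γ)) ∧
      ∀ (g : G), ∀ J ⊆ α, L.cubeSet (g * L.X β) (J.image ρ) =
        {y | ∃ γ, γ ⊆ J ∧ y = g * L.X (symmDiff β γ)} := by
  obtain ⟨ρ, h1, h2, h3⟩ := L.rebase β.card α β hα hβ rfl
  refine ⟨ρ, h1, h2, h3, fun g J hJ => ?_⟩
  ext y
  simp only [cubeSet, Set.mem_ofPred_eq]
  constructor
  · rintro ⟨δ, hδ, rfl⟩
    obtain ⟨γ, hγ, rfl⟩ := Finset.subset_image_iff.1 hδ
    exact ⟨γ, by exact_mod_cast hγ, by rw [mul_assoc, h3 _ ((by exact_mod_cast hγ : γ ⊆ J).trans hJ)]⟩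
  · rintro ⟨γ, hγ, rfl⟩
    exact ⟨γ.image ρ, Finset.image_subset_image hγ, by rw [mul_assoc, h3 _ (hγ.trans hJ)]⟩

/-- Any vertex of a cube can be taken as its base vertex. -/
lemma cubeSet_rebase {g v : G} {α : Finset D} (hα : L.Clique α) (hv : v ∈ L.cubeSet g α) :
    ∃ α', L.Clique α' ∧ L.cubeSet g α = L.cubeSet v α' := by
  obtain ⟨β, hβ, rfl⟩ := hv
  obtain ⟨ρ, _, h2, _, h4⟩ := L.exists_rebase hα hβ
  refine ⟨α.image ρ, h2, ?_⟩
  rw [h4 g α (Finset.Subset.refl _)]
  ext y
  simp only [cubeSet, Set.mem_ofPred_eq]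
  constructor
  · rintro ⟨γ, hγ, rfl⟩
    exact ⟨symmDiff β γ, symmDiff_subset hβ hγ, by rw [symmDiff_cancel_self]⟩
  · rintro ⟨γ, hγ, rfl⟩
    exact ⟨symmDiff β γ, symmDiff_subset hβ hγ, rfl⟩

/-- The family of all cubes. -/
def cubeFamily : Set (Set G) := {σ | ∃ (g : G) (α : Finset D), L.Clique α ∧ σ = L.cubeSet g α}

/-- Distinct cliques give distinct vertices. -/
def XInj : Prop := ∀ α β, L.Clique α → L.Clique β → L.X α = L.X β → α = β

lemma mem_cubeSet_iff (h : L.XInj) (g : G) {α γ : Finset D} (hα : L.Clique α) (hγ : L.Clique γ) :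
    g * L.X γ ∈ L.cubeSet g α ↔ γ ⊆ α := by
  constructor
  · rintro ⟨δ, hδ, he⟩
    rw [h γ δ hγ (hα.mono hδ) (mul_left_cancel he)]
    exact hδ
  · intro h'; exact ⟨γ, h', rfl⟩

lemma cubeSet_subset_iff (h : L.XInj) (g : G) {α γ : Finset D} (hα : L.Clique α)
    (hγ : L.Clique γ) : L.cubeSet g γ ⊆ L.cubeSet g α ↔ γ ⊆ α := by
  constructor
  · intro hs
    rw [← L.mem_cubeSet_iff h g hα hγ]
    exact hs ⟨γ, Finset.Subset.refl _, rfl⟩
  · exact L.cubeSet_mono g

lemma cubeSet_inter (h : L.XInj) (g : G) {α β : Finset D} (hα : L.Clique α) (hβ : L.Clique β) :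
    L.cubeSet g α ∩ L.cubeSet g β = L.cubeSet g (α ∩ β) := by
  ext y
  constructor
  · rintro ⟨⟨γ, hγ, rfl⟩, h2⟩
    rw [L.mem_cubeSet_iff h g hβ (hα.mono hγ)] at h2
    exact ⟨γ, Finset.subset_inter hγ h2, rfl⟩
  · intro hy
    exact ⟨L.cubeSet_mono g Finset.inter_subset_left hy,
      L.cubeSet_mono g Finset.inter_subset_right hy⟩

/-- support of a 0-1-vector -/
noncomputable def supp {α : Finset D} (y : α → Bool) : Finset D :=
  (Finset.univ.filter (fun i : α => y i = true)).image Subtype.val

omit [Group G] in
lemma mem_supp {α : Finset D} (y : α → Bool) (d : D) :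
    d ∈ supp y ↔ ∃ h : d ∈ α, y ⟨d, h⟩ = true := by
  simp [supp]

lemma supp_subset {α : Finset D} (y : α → Bool) : supp y ⊆ α := by
  intro d hd
  rw [mem_supp] at hd
  exact hd.1

lemma supp_injective {α : Finset D} : Function.Injective (supp (α := α)) := by
  intro y z h
  funext i
  have h1 := mem_supp y i.1
  have h2 := mem_supp z i.1
  rw [h] at h1
  have h3 : y i = true ↔ z i = true := by
    constructor
    · intro hy
      obtain ⟨_, h'⟩ := h2.1 (h1.2 ⟨i.2, hy⟩)
      exact h'
    · intro hz
      obtain ⟨_, h'⟩ := h1.1 (h2.2 ⟨i.2, hz⟩)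
      exact h'
  exact Bool.eq_iff_iff.2 h3

lemma exists_supp {α γ : Finset D} (h : γ ⊆ α) : ∃ y : α → Bool, supp y = γ := by
  classical
  refine ⟨fun i => decide (i.1 ∈ γ), ?_⟩
  ext d
  rw [mem_supp]
  simp only [decide_eq_true_eq, exists_prop, and_iff_right_iff_imp]
  exact fun hd => h hd

/-- The cube complex with vertex set `G`. -/
def complex (h : L.XInj) : CubeComplex G where
  cubes := L.cubeFamily
  singleton_mem v := ⟨v, ∅, L.clique_empty, (L.cubeSet_empty v).symm⟩
  inter_mem := by
    rintro σ ⟨g, α, hα, rfl⟩ τ ⟨k, β, hβ, rfl⟩ ⟨v, hv1, hv2⟩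
    obtain ⟨α', hα', h1⟩ := L.cubeSet_rebase hα hv1
    obtain ⟨β', hβ', h2⟩ := L.cubeSet_rebase hβ hv2
    rw [h1, h2, L.cubeSet_inter h v hα' hβ']
    exact ⟨v, α' ∩ β', hα'.mono Finset.inter_subset_left, rfl⟩
  exists_coords := by
    classical
    rintro σ ⟨g, α, hα, rfl⟩
    refine ⟨{d // d ∈ α}, inferInstance, fun y => g * L.X (supp y), ?_, ?_, ?_⟩
    · intro y z hyz
      apply supp_injective
      exact h _ _ (hα.mono (supp_subset y)) (hα.mono (supp_subset z)) (mul_left_cancel hyz)
    · ext x
      constructor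
      · rintro ⟨y, rfl⟩
        exact ⟨supp y, supp_subset y, rfl⟩
      · rintro ⟨γ, hγ, rfl⟩
        obtain ⟨y, rfl⟩ := exists_supp hγ
        exact ⟨y, rfl⟩
    · -- faces
      -- description of a face as a set of group elements
      have key : ∀ (J : Set {d // d ∈ α}) (b : {d // d ∈ α} → Bool),
          (fun y => g * L.X (supp y)) '' {y | ∀ i, i ∉ J → y i = b i} =
          {x | ∃ γ, γ ⊆ α.filter (fun d => ∃ hd : d ∈ α, (⟨d, hd⟩ : {d // d ∈ α}) ∈ J) ∧
            x = g * L.X (symmDiff (supp b) γ)} := by
        intro J b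
        ext x
        constructor
        · rintro ⟨y, hy, rfl⟩
          refine ⟨symmDiff (supp b) (supp y), ?_, by rw [symmDiff_cancel_self]⟩
          intro d hd
          have hdα : d ∈ α := symmDiff_subset (supp_subset b) (supp_subset y) hd
          rw [Finset.mem_filter]
          refine ⟨hdα, hdα, ?_⟩
          by_contra hJ
          have hyb := hy ⟨d, hdα⟩ hJ
          rw [Finset.mem_symmDiff, mem_supp, mem_supp] at hd
          rcases hd with ⟨⟨_, h1⟩, h2⟩ | ⟨⟨_, h1⟩, h2⟩
          · exact h2 ⟨hdα, by rw [hyb]; exact h1⟩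
          · exact h2 ⟨hdα, by rw [← hyb]; exact h1⟩
        · rintro ⟨γ, hγ, rfl⟩
          have hγα : γ ⊆ α := hγ.trans (Finset.filter_subset _ _)
          obtain ⟨y, hy⟩ := exists_supp (symmDiff_subset (supp_subset b) hγα)
          refine ⟨y, ?_, by simp only [hy]⟩
          intro i hi
          have h1 : i.1 ∉ γ := by
            intro hiγ
            have := hγ hiγ
            rw [Finset.mem_filter] at this
            obtain ⟨_, _, h3⟩ := this
            exact hi h3
          have h2 : i.1 ∈ supp y ↔ i.1 ∈ supp b := by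
            rw [hy, Finset.mem_symmDiff]
            simp [h1]
          rw [mem_supp, mem_supp] at h2
          apply Bool.eq_iff_iff.2
          constructor
          · intro hyi
            obtain ⟨_, h'⟩ := h2.1 ⟨i.2, hyi⟩
            exact h'
          · intro hbi
            obtain ⟨_, h'⟩ := h2.2 ⟨i.2, hbi⟩
            exact h'
      intro τ hτ
      constructor
      · rintro ⟨k, κ, hκ, rfl⟩
        obtain ⟨β, hβ, hk⟩ := hτ (L.self_mem_cubeSet k κ)
        obtain ⟨ρ, h1, h2, h3, h4⟩ := L.exists_rebase hα hβ
        have hfull : L.cubeSet g α = L.cubeSet k (α.image ρ) := by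
          rw [hk, h4 g α (Finset.Subset.refl _)]
          ext y
          simp only [cubeSet, Set.mem_ofPred_eq]
          constructor
          · rintro ⟨γ, hγ, rfl⟩
            exact ⟨symmDiff β γ, symmDiff_subset hβ hγ, by rw [symmDiff_cancel_self]⟩
          · rintro ⟨γ, hγ, rfl⟩
            exact ⟨symmDiff β γ, symmDiff_subset hβ hγ, rfl⟩
        rw [hfull, L.cubeSet_subset_iff h k h2 hκ] at hτ
        obtain ⟨J, hJ, rfl⟩ := Finset.subset_image_iff.1 hτ
        have hJ' : J ⊆ α := by exact_mod_cast hJ
        obtain ⟨b, hb⟩ := exists_supp hβ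
        refine ⟨{i | i.1 ∈ J}, b, ?_⟩
        rw [key, hk, h4 g J hJ', hb]
        ext y
        constructor
        · rintro ⟨γ, hγ, rfl⟩
          refine ⟨γ, fun d hd => ?_, rfl⟩
          simp only [Finset.mem_filter]
          exact ⟨hJ' (hγ hd), hJ' (hγ hd), hγ hd⟩
        · rintro ⟨γ, hγ, rfl⟩
          refine ⟨γ, fun d hd => ?_, rfl⟩
          have := hγ hd
          simp only [Finset.mem_filter] at this
          obtain ⟨_, _, h'⟩ := this
          exact h'
      · rintro ⟨J, b, rfl⟩
        obtain ⟨ρ, h1, h2, h3, h4⟩ := L.exists_rebase hα (supp_subset b)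
        rw [key, ← h4 g _ (Finset.filter_subset _ _)]
        exact ⟨_, _, h2.mono (Finset.image_subset_image (Finset.filter_subset _ _)), rfl⟩

@[simp] lemma complex_cubes (h : L.XInj) : (L.complex h).cubes = L.cubeFamily := rfl

lemma cubeSet_mem (h : L.XInj) (g : G) {α : Finset D} (hα : L.Clique α) :
    L.cubeSet g α ∈ (L.complex h).cubes := ⟨g, α, hα, rfl⟩

lemma cubeSet_singleton (g : G) (d : D) : L.cubeSet g {d} = {g, g * L.gen d} := by
  ext y
  simp only [cubeSet, Set.mem_ofPred_eq, Set.mem_insert_iff, Set.mem_singleton_iff]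
  constructor
  · rintro ⟨γ, hγ, rfl⟩
    rcases Finset.subset_singleton_iff.1 hγ with rfl | rfl
    · left; simp
    · right; rw [X_singleton]
  · rintro (rfl | rfl)
    · exact ⟨∅, Finset.empty_subset _, by simp⟩
    · exact ⟨{d}, Finset.Subset.refl _, by rw [X_singleton]⟩

lemma gen_ne_one (h : L.XInj) (d : D) : L.gen d ≠ 1 := by
  intro hd
  have := h {d} ∅ (L.clique_singleton d) L.clique_empty (by rw [X_singleton, X_empty, hd])
  simp at this

lemma gen_injective (h : L.XInj) : Function.Injective L.gen := by
  intro d e hde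
  have := h {d} {e} (L.clique_singleton d) (L.clique_singleton e) (by
    rw [X_singleton, X_singleton, hde])
  simpa using this

lemma adj_iff (h : L.XInj) (v w : G) : (L.complex h).Adj v w ↔ ∃ d, w = v * L.gen d := by
  constructor
  · rintro ⟨hne, g, α, hα, hσ⟩
    have hv : v ∈ L.cubeSet g α := by rw [← hσ]; simp
    obtain ⟨α', hα', h'⟩ := L.cubeSet_rebase hα hv
    rw [h'] at hσ
    have hw : w ∈ L.cubeSet v α' := by rw [← hσ]; simp
    obtain ⟨γ, hγ, hwγ⟩ := hw
    have hγne : γ.Nonempty := by
      rw [Finset.nonempty_iff_ne_empty]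
      rintro rfl
      apply hne
      rw [hwγ, X_empty, mul_one]
    obtain ⟨d, hd⟩ := hγne
    have hd2 : v * L.X {d} ∈ L.cubeSet v α' :=
      ⟨{d}, Finset.singleton_subset_iff.2 (hγ hd), rfl⟩
    rw [← hσ, X_singleton] at hd2
    rcases hd2 with hd2 | hd2
    · exact absurd (by simpa using hd2) (L.gen_ne_one h d)
    · exact ⟨d, hd2.symm⟩
  · rintro ⟨d, rfl⟩
    refine ⟨?_, ?_⟩
    · intro hv
      apply L.gen_ne_one h d
      exact (mul_eq_left.1 hv.symm)
    · rw [← cubeSet_singleton]
      exact L.cubeSet_mem h v (L.clique_singleton d)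

/-- The links are flag. -/
lemma flagLinks (h : L.XInj) : (L.complex h).FlagLinks := by
  classical
  intro v N hN hpair
  have hd : ∀ w ∈ N, ∃ d, w = v * L.gen d := fun w hw => (L.adj_iff h v w).1 (hN w hw)
  rcases N.eq_empty_or_nonempty with rfl | ⟨w₀, hw₀⟩
  · exact ⟨{v}, (L.complex h).singleton_mem v, rfl, by simp⟩
  have : Nonempty D := ⟨(hd w₀ hw₀).choose⟩
  choose! f hf using hd
  have hcl : L.Clique (N.image f) := by
    intro a ha b hb hab
    rw [Finset.mem_image] at ha hb
    obtain ⟨w, hw, rfl⟩ := ha
    obtain ⟨w', hw', rfl⟩ := hb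
    obtain ⟨σ, ⟨g, α, hα, rfl⟩, hv, hwσ, hwσ'⟩ := hpair w hw w' hw'
    obtain ⟨α', hα', h'⟩ := L.cubeSet_rebase hα hv
    rw [h'] at hwσ hwσ'
    rw [hf w hw, ← X_singleton, L.mem_cubeSet_iff h v hα' (L.clique_singleton _),
      Finset.singleton_subset_iff] at hwσ
    rw [hf w' hw', ← X_singleton, L.mem_cubeSet_iff h v hα' (L.clique_singleton _),
      Finset.singleton_subset_iff] at hwσ'
    exact hα' _ hwσ _ hwσ' hab
  refine ⟨L.cubeSet v (N.image f), L.cubeSet_mem h v hcl, L.self_mem_cubeSet _ _, ?_⟩
  intro w hw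
  rw [hf w hw, ← X_singleton, L.mem_cubeSet_iff h v hcl (L.clique_singleton _),
    Finset.singleton_subset_iff]
  exact Finset.mem_image_of_mem f hw

lemma smul_cubeSet (k g : G) (α : Finset D) :
    (fun v : G => k • v) '' L.cubeSet g α = L.cubeSet (k * g) α := by
  ext y
  constructor
  · rintro ⟨x, ⟨γ, hγ, rfl⟩, rfl⟩
    exact ⟨γ, hγ, by simp [mul_assoc]⟩
  · rintro ⟨γ, hγ, rfl⟩
    exact ⟨g * L.X γ, ⟨γ, hγ, rfl⟩, by simp [mul_assoc]⟩

/-- The action by left multiplication is geometric. -/
lemma actsGeometrically [Finite D] (h : L.XInj) : (L.complex h).ActsGeometrically G := by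
  classical
  refine ⟨?_, ?_, ?_, ?_⟩
  · rintro k σ ⟨g, α, hα, rfl⟩
    rw [smul_cubeSet]
    exact L.cubeSet_mem h _ hα
  · intro v
    have := Fintype.ofFinite D
    apply Set.Finite.subset (Set.finite_range (fun α : Finset D => L.cubeSet v α))
    rintro σ ⟨⟨g, α, hα, rfl⟩, hv⟩
    obtain ⟨α', hα', h'⟩ := L.cubeSet_rebase hα hv
    exact ⟨α', h'.symm⟩
  · intro v
    apply Set.Finite.subset (Set.finite_singleton (1 : G))
    intro g hg
    simpa using hg
  · exact ⟨{1}, Set.finite_singleton _, fun v => ⟨v, 1, rfl, by simp⟩⟩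

/-! ### Simple connectivity -/

/-- the successive vertices of the path starting at `v` (excluded) with labels `w` -/
def steps : G → List D → List G
  | _, [] => []
  | v, d :: w => (v * L.gen d) :: steps (v * L.gen d) w

/-- product of the labels -/
def wprod (w : List D) : G := (w.map L.gen).prod

@[simp] lemma wprod_nil : L.wprod [] = 1 := rfl

@[simp] lemma wprod_cons (d : D) (w : List D) : L.wprod (d :: w) = L.gen d * L.wprod w := by
  simp [wprod]

@[simp] lemma wprod_append (w w' : List D) : L.wprod (w ++ w') = L.wprod w * L.wprod w' := by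
  simp [wprod]

lemma steps_append (w w' : List D) : ∀ v : G,
    L.steps v (w ++ w') = L.steps v w ++ L.steps (v * L.wprod w) w' := by
  induction w with
  | nil => intro v; simp [steps]
  | cons d w ih => intro v; simp [steps, ih, mul_assoc]

lemma exists_init (w : List D) : ∀ v : G, ∃ init : List G,
    v :: L.steps v w = init ++ [v * L.wprod w] := by
  induction w with
  | nil => intro v; exact ⟨[], by simp [steps]⟩
  | cons d w ih =>
    intro v
    obtain ⟨init, hinit⟩ := ih (v * L.gen d)
    exact ⟨v :: init, by simp [steps, hinit, mul_assoc]⟩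

lemma exists_word (h : L.XInj) (l : List G) : ∀ v : G, List.IsChain (L.complex h).Adj (v :: l) →
    ∃ w : List D, l = L.steps v w := by
  induction l with
  | nil => intro v _; exact ⟨[], rfl⟩
  | cons x l ih =>
    intro v hch
    rw [List.isChain_cons_cons] at hch
    obtain ⟨d, hd⟩ := (L.adj_iff h v x).1 hch.1
    obtain ⟨w, hw⟩ := ih x hch.2
    refine ⟨d :: w, ?_⟩
    rw [steps, ← hd, hw]

lemma isChain_steps (h : L.XInj) (w : List D) : ∀ v : G,
    List.IsChain (L.complex h).Adj (v :: L.steps v w) := by
  induction w with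
  | nil => intro v; simp [steps]
  | cons d w ih =>
    intro v
    rw [steps, List.isChain_cons_cons]
    exact ⟨(L.adj_iff h _ _).2 ⟨d, rfl⟩, ih _⟩

/-- The elementary relations between words. -/
inductive Move : FreeMonoid D → FreeMonoid D → Prop
  | cancel (d : D) : Move (FreeMonoid.ofList [d, L.inv d]) (FreeMonoid.ofList [])
  | square (d e : D) : L.E d e →
      Move (FreeMonoid.ofList [d, L.r d e]) (FreeMonoid.ofList [e, L.r e d])

lemma homotopic_context (h : L.XInj) {l l' : List G} (p q : List G)
    (hl : (L.complex h).Homotopic l l') : (L.complex h).Homotopic (p ++ l ++ q) (p ++ l' ++ q) := by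
  induction hl with
  | refl l => exact .refl _
  | symm _ ih => exact .symm ih
  | trans _ _ ih1 ih2 => exact .trans ih1 ih2
  | backtrack p' q' x y hxy =>
    have := CubeComplex.Homotopic.backtrack (X := L.complex h) (p ++ p') (q' ++ q) x y hxy
    simpa [List.append_assoc] using this
  | square p' q' x y z y' h1 h2 h3 h4 h5 h6 h7 =>
    have := CubeComplex.Homotopic.square (X := L.complex h) (p ++ p') (q' ++ q) x y z y'
      h1 h2 h3 h4 h5 h6 h7
    simpa [List.append_assoc] using this

lemma homotopic_of_move (h : L.XInj) {w w' : FreeMonoid D} (hm : L.Move w w') (v : G) :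
    (L.complex h).Homotopic (v :: L.steps v w.toList) (v :: L.steps v w'.toList) := by
  cases hm with
  | cancel d =>
    simp only [FreeMonoid.toList_ofList, steps, L.gen_inv, mul_inv_cancel_right]
    exact CubeComplex.Homotopic.backtrack (X := L.complex h) [] [] v (v * L.gen d)
      ((L.adj_iff h _ _).2 ⟨d, rfl⟩)
  | square d e hde =>
    simp only [FreeMonoid.toList_ofList, steps]
    have hsq := L.square hde
    have hcl : L.Clique {d, e} := by
      intro a ha b hb hab
      simp only [Finset.mem_insert, Finset.mem_singleton] at ha hb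
      rcases ha with rfl | rfl <;> rcases hb with rfl | rfl
      · exact absurd rfl hab
      · exact hde
      · exact L.symm hde
      · exact absurd rfl hab
    have hne : d ≠ e := L.ne_of_E hde
    have hX : L.X {d, e} = L.gen d * L.gen (L.r d e) := by
      rw [L.X_insert hcl (by simpa using hne), Finset.image_singleton, X_singleton]
    rw [show v * L.gen e * L.gen (L.r e d) = v * L.gen d * L.gen (L.r d e) by
      rw [mul_assoc, mul_assoc, hsq]]
    refine CubeComplex.Homotopic.square (X := L.complex h) [] [] v (v * L.gen d)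
      (v * L.gen d * L.gen (L.r d e)) (v * L.gen e)
      ((L.adj_iff h _ _).2 ⟨d, rfl⟩) ((L.adj_iff h _ _).2 ⟨_, rfl⟩)
      ((L.adj_iff h _ _).2 ⟨e, rfl⟩)
      ((L.adj_iff h _ _).2 ⟨L.r e d, by rw [mul_assoc, mul_assoc, hsq]⟩) ?_ ?_ ?_
    · intro hv
      rw [mul_assoc, ← hX] at hv
      have := h {d, e} ∅ hcl L.clique_empty (by
        rw [X_empty]; exact mul_eq_left.1 hv.symm)
      simp at this
    · intro hv
      exact hne (L.gen_injective h (mul_left_cancel hv))
    · have : ({v, v * L.gen d, v * L.gen d * L.gen (L.r d e), v * L.gen e} : Set G) =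
          L.cubeSet v {d, e} := by
        ext y
        simp only [Set.mem_insert_iff, Set.mem_singleton_iff, cubeSet, Set.mem_ofPred_eq]
        constructor
        · rintro (rfl | rfl | rfl | rfl)
          · exact ⟨∅, by simp, by simp⟩
          · exact ⟨{d}, by simp, by rw [X_singleton]⟩
          · exact ⟨{d, e}, Finset.Subset.refl _, by rw [hX, mul_assoc]⟩
          · exact ⟨{e}, by simp, by rw [X_singleton]⟩
        · rintro ⟨γ, hγ, rfl⟩
          by_cases hdγ : d ∈ γ <;> by_cases heγ : e ∈ γ
          · have : γ = {d, e} := by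
              ext x
              constructor
              · intro hx; exact hγ hx
              · intro hx
                simp only [Finset.mem_insert, Finset.mem_singleton] at hx
                rcases hx with rfl | rfl <;> assumption
            right; right; left
            rw [this, hX, mul_assoc]
          · have : γ = {d} := by
              ext x
              simp only [Finset.mem_singleton]
              constructor
              · intro hx
                have := hγ hx
                simp only [Finset.mem_insert, Finset.mem_singleton] at this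
                rcases this with rfl | rfl
                · rfl
                · exact absurd hx heγ
              · rintro rfl; exact hdγ
            right; left
            rw [this, X_singleton]
          · have : γ = {e} := by
              ext x
              simp only [Finset.mem_singleton]
              constructor
              · intro hx
                have := hγ hx
                simp only [Finset.mem_insert, Finset.mem_singleton] at this
                rcases this with rfl | rfl
                · exact absurd hx hdγ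
                · rfl
              · rintro rfl; exact heγ
            right; right; right
            rw [this, X_singleton]
          · have : γ = ∅ := by
              rw [Finset.eq_empty_iff_forall_notMem]
              intro x hx
              have := hγ hx
              simp only [Finset.mem_insert, Finset.mem_singleton] at this
              rcases this with rfl | rfl
              · exact hdγ hx
              · exact heγ hx
            left
            rw [this, X_empty, mul_one]
      rw [this]
      exact L.cubeSet_mem h v hcl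

lemma wprod_of_move {w w' : FreeMonoid D} (hm : L.Move w w') :
    L.wprod w.toList = L.wprod w'.toList := by
  cases hm with
  | cancel d => simp [L.gen_inv]
  | square d e hde => simp [L.square hde]

lemma homotopic_of_conGen (h : L.XInj) {w w' : FreeMonoid D}
    (hm : ConGen.Rel L.Move w w') :
    L.wprod w.toList = L.wprod w'.toList ∧ ∀ v : G,
      (L.complex h).Homotopic (v :: L.steps v w.toList) (v :: L.steps v w'.toList) := by
  induction hm with
  | of w w' hm => exact ⟨L.wprod_of_move hm, L.homotopic_of_move h hm⟩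
  | refl w => exact ⟨rfl, fun v => .refl _⟩
  | symm _ ih => exact ⟨ih.1.symm, fun v => (ih.2 v).symm⟩
  | trans _ _ ih1 ih2 => exact ⟨ih1.1.trans ih2.1, fun v => (ih1.2 v).trans (ih2.2 v)⟩
  | @mul w x y z _ _ ih1 ih2 =>
    refine ⟨by rw [FreeMonoid.toList_mul, FreeMonoid.toList_mul, wprod_append, wprod_append,
      ih1.1, ih2.1], fun v => ?_⟩
    rw [FreeMonoid.toList_mul, FreeMonoid.toList_mul, steps_append, steps_append]
    -- first change the second factor, then the first one
    obtain ⟨init, hinit⟩ := L.exists_init w.toList v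
    have h1 : (L.complex h).Homotopic
        (v :: (L.steps v w.toList ++ L.steps (v * L.wprod w.toList) y.toList))
        (v :: (L.steps v w.toList ++ L.steps (v * L.wprod w.toList) z.toList)) := by
      have h2 := L.homotopic_context h init [] (ih2.2 (v * L.wprod w.toList))
      have e1 : ∀ u : List D, init ++ ((v * L.wprod w.toList) :: L.steps (v * L.wprod w.toList) u)
          ++ [] = v :: (L.steps v w.toList ++ L.steps (v * L.wprod w.toList) u) := by
        intro u
        rw [← List.cons_append, hinit]
        simp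
      rw [e1, e1] at h2
      exact h2
    have h3 : (L.complex h).Homotopic
        (v :: (L.steps v w.toList ++ L.steps (v * L.wprod w.toList) z.toList))
        (v :: (L.steps v x.toList ++ L.steps (v * L.wprod w.toList) z.toList)) := by
      have h2 := L.homotopic_context h [] (L.steps (v * L.wprod w.toList) z.toList) (ih1.2 v)
      simpa using h2
    rw [ih1.1] at h1 h3 ⊢
    exact h1.trans h3

/-- If every relation between the generators follows from the elementary ones, the complex is
simply connected. -/
lemma simplyConnected (h : L.XInj)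
    (hgen : ∀ g : G, ∃ w : List D, L.wprod w = g)
    (hrel : ∀ w : List D, L.wprod w = 1 → ConGen.Rel L.Move (FreeMonoid.ofList w) 1) :
    (L.complex h).SimplyConnected := by
  refine ⟨⟨1⟩, ?_, ?_⟩
  · intro v w
    obtain ⟨u, hu⟩ := hgen (v⁻¹ * w)
    refine ⟨v :: L.steps v u, ⟨by simp, L.isChain_steps h u v⟩, by simp, ?_⟩
    obtain ⟨init, hinit⟩ := L.exists_init u v
    rw [hinit, hu]
    simp
  · intro v l hl hhead hlast
    obtain ⟨hne, hch⟩ := hl
    cases l with
    | nil => exact absurd rfl hne
    | cons x l =>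
      simp only [List.head?_cons, Option.some.injEq] at hhead
      subst hhead
      obtain ⟨w, rfl⟩ := L.exists_word h l x hch
      obtain ⟨init, hinit⟩ := L.exists_init w x
      rw [hinit] at hlast
      simp only [List.getLast?_append, List.getLast?_singleton, Option.some_or,
        Option.some.injEq] at hlast
      have hw : L.wprod w = 1 := mul_eq_left.1 hlast
      have := (L.homotopic_of_conGen h (hrel w hw)).2 x
      simpa [steps] using this

end LocalData

end Pool.Agent.W_MP_56a3d2_al
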