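import Mathlib

set_option autoImplicit false

/-!
# Combinatorial CAT(0) cube complexes and geometric actions

A cube complex in which every cube is embedded and two cubes meet in a common face (or not at
all) is recorded by its set of vertices `V` and by the family of vertex sets of its (closed)
cubes.  Every cube is combinatorially a cube `{0,1}^ι`, its faces being exactly the cubes
contained in it.
-/

namespace Pool.Agent.W_MP_56a3d2_al

/-- A cube complex with vertex set `V`, all of whose cubes are embedded and in which two cubes are
either disjoint or meet in a common face.  `cubes` is the family of the vertex sets of the closed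
cubes (of all dimensions). -/
structure CubeComplex (V : Type) where
  /-- the vertex sets of the closed cubes -/
  cubes : Set (Set V)
  /-- every vertex is a (zero-dimensional) cube -/
  singleton_mem : ∀ v : V, {v} ∈ cubes
  /-- two cubes that meet, meet in a cube -/
  inter_mem : ∀ σ ∈ cubes, ∀ τ ∈ cubes, (σ ∩ τ).Nonempty → σ ∩ τ ∈ cubes
  /-- every cube `σ` can be identified with `{0,1}^ι` for a finite set `ι` in such a way that the
  cubes contained in `σ` are exactly the faces of `{0,1}^ι`: the sets of all `y` which agree with a
  given point `b` outside a given set `J` of free coordinates. -/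
  exists_coords : ∀ σ ∈ cubes, ∃ (ι : Type) (_ : Finite ι) (e : (ι → Bool) → V),
    Function.Injective e ∧ Set.range e = σ ∧
      ∀ τ : Set V, τ ⊆ σ → (τ ∈ cubes ↔
        ∃ (J : Set ι) (b : ι → Bool), τ = e '' {y | ∀ i, i ∉ J → y i = b i})

namespace CubeComplex

variable {V : Type} (X : CubeComplex V)

/-- Two vertices are adjacent if they are the two ends of an edge (one-dimensional cube). -/
def Adj (v w : V) : Prop := v ≠ w ∧ {v, w} ∈ X.cubes

/-- All vertex links are flag simplicial complexes.  The vertices of the link of `v` are the
neighbours of `v`; a finite set `N` of neighbours spans a simplex of the link if some cube contains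
`v` and `N`.  Flag: if any two members of `N` lie with `v` in a common cube, then all of `N` does. -/
def FlagLinks : Prop :=
  ∀ (v : V) (N : Finset V), (∀ w ∈ N, X.Adj v w) →
    (∀ w ∈ N, ∀ w' ∈ N, ∃ σ ∈ X.cubes, v ∈ σ ∧ w ∈ σ ∧ w' ∈ σ) →
    ∃ σ ∈ X.cubes, v ∈ σ ∧ ∀ w ∈ N, w ∈ σ

/-- An edge path, given by the list of its successive vertices. -/
def IsEdgePath (l : List V) : Prop := l ≠ [] ∧ List.IsChain X.Adj l

/-- Combinatorial homotopy of edge paths (given as lists of vertices): the equivalence relation
generated by removing a backtrack `x y x ↦ x` and by pushing a path across a square with the four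
distinct corners `x, y, z, y'`, that is `x y z ↦ x y' z`. -/
inductive Homotopic : List V → List V → Prop
  | refl (l : List V) : Homotopic l l
  | symm {l l' : List V} : Homotopic l l' → Homotopic l' l
  | trans {l l' l'' : List V} : Homotopic l l' → Homotopic l' l'' → Homotopic l l''
  | backtrack (p q : List V) (x y : V) : X.Adj x y →
      Homotopic (p ++ x :: y :: x :: q) (p ++ x :: q)
  | square (p q : List V) (x y z y' : V) : X.Adj x y → X.Adj y z → X.Adj x y' → X.Adj y' z →
      x ≠ z → y ≠ y' → {x, y, z, y'} ∈ X.cubes →
      Homotopic (p ++ x :: y :: z :: q) (p ++ x :: y' :: z :: q)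

/-- The complex is nonempty, connected, and every closed edge path is null-homotopic. -/
def SimplyConnected : Prop :=
  Nonempty V ∧
  (∀ v w : V, ∃ l : List V, X.IsEdgePath l ∧ l.head? = some v ∧ l.getLast? = some w) ∧
  (∀ (v : V) (l : List V), X.IsEdgePath l → l.head? = some v → l.getLast? = some v →
    X.Homotopic l [v])

/-- A CAT(0) cube complex: simply connected with flag vertex links. -/
def IsCAT0 : Prop := X.SimplyConnected ∧ X.FlagLinks

/-- The group `G` acts by automorphisms of the cube complex, properly (vertex stabilisers are
finite and every vertex lies in finitely many cubes) and cocompactly (finitely many vertices, and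
hence finitely many cubes, up to the action). -/
def ActsGeometrically (G : Type) [Group G] [MulAction G V] : Prop :=
  (∀ (g : G), ∀ σ ∈ X.cubes, (fun v : V => g • v) '' σ ∈ X.cubes) ∧
  (∀ v : V, {σ | σ ∈ X.cubes ∧ v ∈ σ}.Finite) ∧
  (∀ v : V, {g : G | g • v = v}.Finite) ∧
  (∃ S : Set V, S.Finite ∧ ∀ v : V, ∃ g : G, ∃ s ∈ S, v = g • s)

end CubeComplex

/-- `G` acts properly and cocompactly by automorphisms on a CAT(0) cube complex. -/
def ActsGeometricallyOnCAT0CubeComplex (G : Type) [Group G] : Prop :=
  ∃ (V : Type) (X : CubeComplex V) (_ : MulAction G V), X.IsCAT0 ∧ X.ActsGeometrically G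

end Pool.Agent.W_MP_56a3d2_al
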