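import Pool.Agent.W_MP_56a3d2_al.Main

set_option autoImplicit false

/-! Simple connectivity of the complex of the mapping torus. -/

namespace Pool.Agent.W_MP_56a3d2_al

/-- The congruence generated by the elementary relations. -/
abbrev cc : Con (FreeMonoid (Fin 14)) := conGen L0.Move

abbrev QQ : Type := cc.Quotient

/-- class of a word -/
def cls (w : FreeMonoid (Fin 14)) : QQ := (w : cc.Quotient)

lemma cls_mul (w w' : FreeMonoid (Fin 14)) : cls (w * w') = cls w * cls w' := rfl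

lemma cls_one : cls 1 = 1 := rfl

lemma cls_eq {w w' : FreeMonoid (Fin 14)} : cls w = cls w' ↔ ConGen.Rel L0.Move w w' :=
  cc.eq

lemma tinv_tinv : ∀ d, tinv (tinv d) = d := by decide +kernel

/-- generator as a unit -/
def uu (d : Fin 14) : QQˣ where
  val := cls (FreeMonoid.of d)
  inv := cls (FreeMonoid.of (tinv d))
  val_inv := by
    rw [← cls_mul, ← cls_one, cls_eq]
    exact ConGen.Rel.of _ _ (LocalData.Move.cancel d)
  inv_val := by
    rw [← cls_mul, ← cls_one, cls_eq]
    have := ConGen.Rel.of _ _ (LocalData.Move.cancel (L := L0) (tinv d))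
    have h2 : L0.inv (tinv d) = d := tinv_tinv d
    rw [h2] at this
    exact this

lemma uu_inv (d : Fin 14) : uu (tinv d) = (uu d)⁻¹ := Units.ext rfl

lemma uu_sq (d e : Fin 14) (h : tE d e) : uu d * uu (tr d e) = uu e * uu (tr e d) := by
  apply Units.ext
  show cls (FreeMonoid.of d) * cls (FreeMonoid.of (tr d e)) =
    cls (FreeMonoid.of e) * cls (FreeMonoid.of (tr e d))
  rw [← cls_mul, ← cls_mul, cls_eq]
  exact ConGen.Rel.of _ _ (LocalData.Move.square (L := L0) d e h)

lemma u1 : uu 0 * uu 2 = uu 1 * uu 0 := uu_sq 0 1 (by decide +kernel)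
lemma u2 : uu 1 * uu 2 = uu 2 * uu 1 := uu_sq 1 2 (by decide +kernel)
lemma u3 : uu 3 * (uu 0)⁻¹ = uu 0 * uu 4 := by
  have := uu_sq 3 0 (by decide +kernel)
  have h2 : uu (tr 3 0) = (uu 0)⁻¹ := by rw [← uu_inv]; rfl
  rw [h2] at this
  exact this
lemma u5 : uu 3 * uu 2 = uu 1 * uu 5 := uu_sq 3 1 (by decide +kernel)
lemma u6 : uu 5 * (uu 0)⁻¹ = uu 0 * uu 3 := by
  have := uu_sq 5 0 (by decide +kernel)
  have h2 : uu (tr 5 0) = (uu 0)⁻¹ := by rw [← uu_inv]; rfl
  rw [h2] at this
  exact this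
lemma u7 : uu 4 * uu 2 = uu 1 * uu 6 := uu_sq 4 1 (by decide +kernel)

lemma ukey : uu 3 * uu 2 * (uu 0)⁻¹ = uu 0 * uu 2 * uu 3 := by
  rw [u5, mul_assoc, u6, ← mul_assoc, ← u1]

lemma exists_retract : ∃ f : GG →* QQˣ, ∀ d, f (gen0 d) = uu d := by
  have hc1 : Commute (uu 2) (uu 1)⁻¹ := by
    have : Commute (uu 2) (uu 1) := u2.symm
    exact this.inv_right
  obtain ⟨f, h1, h2, h3, h4⟩ := exists_lift (uu 2 * (uu 1)⁻¹) (uu 0) ((uu 3 * uu 0)⁻¹) (uu 2)
    (by
      have := hc1.eq
      rw [mul_assoc, ← this])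
    (by
      calc uu 2 * uu 0 = uu 2 * (uu 1)⁻¹ * (uu 1 * uu 0) := by group
        _ = uu 2 * (uu 1)⁻¹ * (uu 0 * uu 2) := by rw [← u1]
        _ = uu 2 * (uu 1)⁻¹ * uu 0 * uu 2 := by group)
    (by
      have hk := ukey
      have h5 : uu 0 * uu 2 = uu 3 * uu 2 * (uu 0)⁻¹ * (uu 3)⁻¹ := by rw [hk]; group
      calc uu 2 * (uu 3 * uu 0)⁻¹ = (uu 3)⁻¹ * (uu 3 * uu 2 * (uu 0)⁻¹ * (uu 3)⁻¹) := by group
        _ = (uu 3)⁻¹ * (uu 0 * uu 2) := by rw [← h5]
        _ = uu 0 * (uu 3 * uu 0)⁻¹ * uu 0 * uu 2 := by group)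
  have hs : f gs = uu 1 := by
    rw [gs, map_mul, map_inv, h1, h4]; group
  have hv : f gv = uu 3 := by
    rw [gv, map_mul, map_inv, map_inv, h2, h3]; group
  have hw : f gw = uu 4 := by
    rw [gw, map_mul, map_mul, map_inv, h2, hv, mul_assoc, u3]; group
  have hx : f gx = uu 5 := by
    rw [gx, map_mul, map_mul, map_inv, hs, hv, h4, mul_assoc, u5]; group
  have hu : f gu = uu 6 := by
    rw [gu, map_mul, map_mul, map_inv, hs, hw, h4, mul_assoc, u7]; group
  refine ⟨f, fun d => ?_⟩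
  fin_cases d
  · exact h2
  · exact hs
  · exact h4
  · exact hv
  · exact hw
  · exact hx
  · exact hu
  · show f gb⁻¹ = uu (tinv 0)
    rw [map_inv, h2, uu_inv]
  · show f gs⁻¹ = uu (tinv 1)
    rw [map_inv, hs, uu_inv]
  · show f gt⁻¹ = uu (tinv 2)
    rw [map_inv, h4, uu_inv]
  · show f gv⁻¹ = uu (tinv 3)
    rw [map_inv, hv, uu_inv]
  · show f gw⁻¹ = uu (tinv 4)
    rw [map_inv, hw, uu_inv]
  · show f gx⁻¹ = uu (tinv 5)
    rw [map_inv, hx, uu_inv]
  · show f gu⁻¹ = uu (tinv 6)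
    rw [map_inv, hu, uu_inv]

/-- Every relation between the generators is a consequence of the elementary ones. -/
lemma rel_of_wprod (w : List (Fin 14)) (h : L0.wprod w = 1) :
    ConGen.Rel L0.Move (FreeMonoid.ofList w) 1 := by
  obtain ⟨f, hf⟩ := exists_retract
  have key : ∀ w : List (Fin 14), ((f (L0.wprod w) : QQˣ) : QQ) = cls (FreeMonoid.ofList w) := by
    intro w
    induction w with
    | nil => simp [cls_one]
    | cons d w ih =>
      rw [LocalData.wprod_cons, map_mul, Units.val_mul, ih]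
      have : FreeMonoid.ofList (d :: w) = FreeMonoid.of d * FreeMonoid.ofList w := rfl
      rw [this, cls_mul]
      congr 1
      have h2 := hf d
      exact congrArg Units.val h2
  have h1 := key w
  rw [h, map_one, Units.val_one, ← cls_one] at h1
  exact cls_eq.1 h1.symm

/-- The generators generate. -/
lemma exists_wprod (g : GG) : ∃ w : List (Fin 14), L0.wprod w = g := by
  have hmul : ∀ g h : GG, (∃ w, L0.wprod w = g) → (∃ w, L0.wprod w = h) →
      ∃ w, L0.wprod w = g * h := by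
    rintro g h ⟨w, rfl⟩ ⟨w', rfl⟩
    exact ⟨w ++ w', by simp⟩
  have hone : ∃ w : List (Fin 14), L0.wprod w = 1 := ⟨[], rfl⟩
  have hg : ∀ d, ∃ w, L0.wprod w = gen0 d := fun d => ⟨[d], by
    rw [LocalData.wprod_cons, LocalData.wprod_nil, mul_one]; rfl⟩
  have hga : ∃ w, L0.wprod w = ga := by
    have : ga = gt * gs⁻¹ := by
      rw [gs, mul_inv_rev, inv_inv, ← mul_assoc, mul_inv_cancel, one_mul]
    rw [this]
    exact hmul _ _ (hg 2) (hg 8)
  have hga' : ∃ w, L0.wprod w = ga⁻¹ := by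
    have : ga⁻¹ = gs * gt⁻¹ := by
      rw [gs, mul_inv_cancel_right]
    rw [this]
    exact hmul _ _ (hg 1) (hg 9)
  have hgc : ∃ w, L0.wprod w = gc := by
    have : gc = gb⁻¹ * gv⁻¹ := by rw [gv]; group
    rw [this]
    exact hmul _ _ (hg 7) (hg 10)
  have hgc' : ∃ w, L0.wprod w = gc⁻¹ := by
    have : gc⁻¹ = gv * gb := by rw [gv]; group
    rw [this]
    exact hmul _ _ (hg 3) (hg 0)
  rw [← SemidirectProduct.inl_left_mul_inr_right g]
  apply hmul
  · induction g.left using FreeGroup.induction_on with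
    | C1 => simpa using hone
    | of i =>
      fin_cases i
      · exact hga
      · exact hg 0
      · exact hgc
    | inv_of i _ =>
      rw [map_inv]
      fin_cases i
      · exact hga'
      · exact hg 7
      · exact hgc'
    | mul x y hx hy => rw [map_mul]; exact hmul _ _ hx hy
  · have : ∀ n : ℤ, ∃ w, L0.wprod w = (gt ^ n : GG) := by
      intro n
      induction n using Int.induction_on with
      | zero => simpa using hone
      | succ n ih => rw [zpow_add, zpow_one]; exact hmul _ _ ih (hg 2)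
      | pred n ih => rw [zpow_sub, zpow_one]; exact hmul _ _ ih (hg 9)
    have h2 := this (Multiplicative.toAdd g.right)
    have h3 : (gt ^ (Multiplicative.toAdd g.right) : GG) = SemidirectProduct.inr g.right := by
      rw [gt, ← map_zpow, ← ofAdd_zsmul]
      simp
    rw [h3] at h2
    exact h2

theorem main : ActsGeometricallyOnCAT0CubeComplex GG :=
  ⟨GG, L0.complex L0_XInj, inferInstance,
    ⟨L0.simplyConnected L0_XInj exists_wprod rel_of_wprod, L0.flagLinks L0_XInj⟩,
    L0.actsGeometrically L0_XInj⟩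

end Pool.Agent.W_MP_56a3d2_al
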