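import Pool.Agent.W_MP_56a3d2_al.Complex

set_option autoImplicit false

/-! The free-by-cyclic group and its local data. -/

namespace Pool.Agent.W_MP_56a3d2_al

/-! ### Tables -/

/-- Directions: `0..6` are `b, s, t, v, w, x, u`, and `d + 7` is the inverse of `d`. -/
def tab : List (List ℕ) :=
  [[14, 2, 14, 4, 14, 3, 14, 14, 9, 14, 12, 10, 14, 14],
   [0, 14, 2, 5, 6, 14, 14, 14, 14, 9, 14, 10, 14, 12],
   [14, 1, 14, 14, 3, 14, 5, 7, 8, 14, 12, 13, 14, 14],
   [7, 2, 14, 14, 14, 14, 14, 0, 14, 8, 14, 14, 14, 14],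
   [14, 2, 1, 14, 14, 14, 14, 0, 14, 14, 14, 14, 14, 14],
   [7, 14, 14, 14, 14, 14, 14, 14, 9, 8, 14, 14, 14, 14],
   [14, 14, 1, 14, 14, 14, 14, 14, 9, 14, 14, 14, 14, 14],
   [14, 14, 1, 5, 3, 14, 14, 14, 14, 8, 11, 14, 10, 14],
   [0, 14, 2, 14, 14, 3, 4, 14, 14, 9, 11, 14, 13, 14],
   [14, 1, 14, 4, 14, 6, 14, 7, 8, 14, 14, 14, 10, 11],
   [7, 14, 1, 14, 14, 14, 14, 0, 9, 14, 14, 14, 14, 14],
   [7, 2, 1, 14, 14, 14, 14, 14, 14, 14, 14, 14, 14, 14],
   [14, 14, 14, 14, 14, 14, 14, 0, 9, 8, 14, 14, 14, 14],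
   [14, 2, 14, 14, 14, 14, 14, 14, 14, 8, 14, 14, 14, 14]]

def T (d e : Fin 14) : ℕ := (tab.getD d.val []).getD e.val 14

def tE (d e : Fin 14) : Prop := T d e < 14

instance (d e : Fin 14) : Decidable (tE d e) := inferInstanceAs (Decidable (T d e < 14))

def tr (d e : Fin 14) : Fin 14 := Fin.ofNat 14 (T d e)

def tinv (d : Fin 14) : Fin 14 := d + 7

lemma tE_symm : ∀ d e, tE d e → tE e d := by decide +kernel

lemma tE_irrefl : ∀ d, ¬ tE d d := by decide +kernel

lemma t_r_E : ∀ d e f, tE d e → tE d f → tE e f → tE (tr d e) (tr d f) := by decide +kernel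

lemma t_cocycle : ∀ d e f, tE d e → tE d f → tE e f →
    tr (tr d e) (tr d f) = tr (tr e d) (tr e f) := by decide +kernel

lemma t_inv_E : ∀ d e, tE d e → tE (tinv d) (tr d e) := by decide +kernel

lemma t_inv_r : ∀ d e, tE d e → tr (tinv d) (tr d e) = e := by decide +kernel

/-- The squares `p q = u w`. -/
def sqs (i : Fin 8) : Fin 14 × Fin 14 × Fin 14 × Fin 14 :=
  ([(0, 2, 1, 0), (1, 2, 2, 1), (3, 7, 0, 4), (4, 1, 2, 3), (3, 2, 1, 5), (5, 7, 0, 3),
    (4, 2, 1, 6), (6, 1, 2, 5)] : List (Fin 14 × Fin 14 × Fin 14 × Fin 14)).getD i.val (0, 0, 0, 0)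

/-- The eight ways of reading a square. -/
def form (k : Fin 8) (z : Fin 14 × Fin 14 × Fin 14 × Fin 14) : Fin 14 × Fin 14 × Fin 14 × Fin 14 :=
  match z with
  | (p, q, u, w) =>
    match k with
    | 0 => (p, q, u, w)
    | 1 => (u, w, p, q)
    | 2 => (tinv p, u, q, tinv w)
    | 3 => (q, tinv w, tinv p, u)
    | 4 => (tinv u, p, w, tinv q)
    | 5 => (w, tinv q, tinv u, p)
    | 6 => (tinv q, tinv p, tinv w, tinv u)
    | 7 => (tinv w, tinv u, tinv q, tinv p)

lemma t_forms : ∀ d e, tE d e → ∃ i k, form k (sqs i) = (d, tr d e, e, tr e d) := by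
  decide +kernel

/-- Local data from seven elements satisfying the eight square relations. -/
def mkData {H : Type} [Group H] (gen : Fin 14 → H) (hinv : ∀ d, gen (tinv d) = (gen d)⁻¹)
    (hsq : ∀ i, gen (sqs i).1 * gen (sqs i).2.1 = gen (sqs i).2.2.1 * gen (sqs i).2.2.2) :
    LocalData (Fin 14) H where
  E := tE
  inv := tinv
  r := tr
  gen := gen
  symm := fun {d e} h => tE_symm d e h
  irrefl := tE_irrefl
  square := by
    intro d e h
    obtain ⟨i, k, hik⟩ := t_forms d e h
    have hs := hsq i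
    generalize sqs i = z at hs hik
    obtain ⟨p, q, u, w⟩ := z
    change gen p * gen q = gen u * gen w at hs
    have key : ∀ x y z t : Fin 14, (x, y, z, t) = (d, tr d e, e, tr e d) →
        gen x * gen y = gen z * gen t → gen d * gen (tr d e) = gen e * gen (tr e d) := by
      intro x y z t hxy h'
      simp only [Prod.mk.injEq] at hxy
      obtain ⟨rfl, rfl, rfl, rfl⟩ := hxy
      exact h'
    have hs1 : gen u = gen p * gen q * (gen w)⁻¹ := by rw [hs]; group
    fin_cases k
    · exact key _ _ _ _ hik hs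
    · exact key _ _ _ _ hik hs.symm
    · refine key _ _ _ _ hik ?_
      rw [hinv, hinv, hs1]; group
    · refine key _ _ _ _ hik ?_
      rw [hinv, hinv, hs1]; group
    · refine key _ _ _ _ hik ?_
      rw [hinv, hinv, hs1]; group
    · refine key _ _ _ _ hik ?_
      rw [hinv, hinv, hs1]; group
    · refine key _ _ _ _ hik ?_
      rw [hinv, hinv, hinv, hinv, hs1]; group
    · refine key _ _ _ _ hik ?_
      rw [hinv, hinv, hinv, hinv, hs1]; group
  r_E := fun {d e f} => t_r_E d e f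
  cocycle := fun {d e f} => t_cocycle d e f
  gen_inv := hinv
  inv_E := fun {d e} => t_inv_E d e
  inv_r := fun {d e} => t_inv_r d e

/-! ### The group -/

/-- `a, b, c` -/
abbrev fa : FreeGroup (Fin 3) := FreeGroup.of 0
abbrev fb : FreeGroup (Fin 3) := FreeGroup.of 1
abbrev fc : FreeGroup (Fin 3) := FreeGroup.of 2

/-- The automorphism `a ↦ a`, `b ↦ ab`, `c ↦ bcb`. -/
def phi : MulAut (FreeGroup (Fin 3)) :=
  MonoidHom.toMulEquiv
    (FreeGroup.lift ![fa, fa * fb, fb * fc * fb])
    (FreeGroup.lift ![fa, fa⁻¹ * fb, (fa⁻¹ * fb)⁻¹ * fc * (fa⁻¹ * fb)⁻¹])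
    (by
      ext i
      fin_cases i <;> simp [fa, fb, fc, mul_assoc])
    (by
      ext i
      fin_cases i <;> simp [fa, fb, fc, mul_assoc])

lemma phi_a : phi fa = fa := by simp [phi, fa]
lemma phi_b : phi fb = fa * fb := by simp [phi, fa, fb]
lemma phi_c : phi fc = fb * fc * fb := by simp [phi, fb, fc]

/-- The mapping torus. -/
abbrev GG : Type :=
  FreeGroup (Fin 3) ⋊[zpowersHom (MulAut (FreeGroup (Fin 3))) phi] Multiplicative ℤ

def ga : GG := SemidirectProduct.inl fa
def gb : GG := SemidirectProduct.inl fb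
def gc : GG := SemidirectProduct.inl fc
def gt : GG := SemidirectProduct.inr (Multiplicative.ofAdd 1)

lemma conj_inl (x : FreeGroup (Fin 3)) :
    gt * SemidirectProduct.inl x * gt⁻¹ = (SemidirectProduct.inl (phi x) : GG) := by
  have := SemidirectProduct.inl_aut (φ := zpowersHom (MulAut (FreeGroup (Fin 3))) phi)
    (Multiplicative.ofAdd 1) x
  rw [gt, ← map_inv, ← this]
  simp

lemma ta : gt * ga = ga * gt := by
  have := conj_inl fa
  rw [phi_a] at this
  rw [ga, ← mul_inv_eq_iff_eq_mul]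
  exact this

lemma tb : gt * gb = ga * gb * gt := by
  have := conj_inl fb
  rw [phi_b, map_mul] at this
  rw [ga, gb, ← mul_inv_eq_iff_eq_mul]
  exact this

lemma tc : gt * gc = gb * gc * gb * gt := by
  have := conj_inl fc
  rw [phi_c, map_mul, map_mul] at this
  rw [gb, gc, ← mul_inv_eq_iff_eq_mul]
  exact this

/-- The universal property. -/
lemma exists_lift {H : Type} [Group H] (A B C T : H) (h1 : T * A = A * T)
    (h2 : T * B = A * B * T) (h3 : T * C = B * C * B * T) :
    ∃ f : GG →* H, f ga = A ∧ f gb = B ∧ f gc = C ∧ f gt = T := by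
  let f1 : FreeGroup (Fin 3) →* H := FreeGroup.lift ![A, B, C]
  have hconj : ∀ x, f1 (phi x) = T * f1 x * T⁻¹ := by
    have : f1.comp phi.toMonoidHom = (MulAut.conj T).toMonoidHom.comp f1 := by
      ext i
      fin_cases i
      · show f1 (phi fa) = T * f1 fa * T⁻¹
        rw [phi_a]
        simp only [f1, fa, FreeGroup.lift_apply_of]
        simp [h1]
      · show f1 (phi fb) = T * f1 fb * T⁻¹
        rw [phi_b, map_mul]
        simp only [f1, fa, fb, FreeGroup.lift_apply_of]
        simp [h2]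
      · show f1 (phi fc) = T * f1 fc * T⁻¹
        rw [phi_c, map_mul, map_mul]
        simp only [f1, fb, fc, FreeGroup.lift_apply_of]
        simp [h3]
    intro x
    exact DFunLike.congr_fun this x
  have hpow : ∀ (n : ℤ) x, f1 ((phi ^ n) x) = T ^ n * f1 x * (T ^ n)⁻¹ := by
    intro n
    induction n using Int.induction_on with
    | zero => intro x; simp
    | succ n ih =>
      intro x
      rw [zpow_add, zpow_one, MulAut.mul_apply, ih, hconj, zpow_add, zpow_one]
      group
    | pred n ih =>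
      intro x
      have h' : f1 (phi⁻¹ x) = T⁻¹ * f1 x * T := by
        have := hconj (phi⁻¹ x)
        rw [MulAut.apply_inv_self] at this
        rw [this]; group
      rw [zpow_sub, zpow_one, MulAut.mul_apply, ih, h', zpow_sub, zpow_one]
      group
  let f : GG →* H := SemidirectProduct.lift f1 (zpowersHom H T) (by
    intro g
    ext i
    have := hpow (Multiplicative.toAdd g) (FreeGroup.of i)
    have e2 : (MulAut.conj T ^ Multiplicative.toAdd g) (f1 (FreeGroup.of i)) =
        T ^ Multiplicative.toAdd g * f1 (FreeGroup.of i) * (T ^ Multiplicative.toAdd g)⁻¹ := by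
      rw [← map_zpow, MulAut.conj_apply]
    rw [← e2] at this
    simpa using this)
  refine ⟨f, ?_, ?_, ?_, ?_⟩
  · simp [f, ga, f1, fa]
  · simp [f, gb, f1, fb]
  · simp [f, gc, f1, fc]
  · simp [f, gt]

end Pool.Agent.W_MP_56a3d2_al
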