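import Pool.Agent.W_MP_56a3d2_al.Group

set_option autoImplicit false

/-! The main theorem for the mapping torus. -/

namespace Pool.Agent.W_MP_56a3d2_al

/-! ### The fourteen generators -/

def gs : GG := ga⁻¹ * gt
def gv : GG := gc⁻¹ * gb⁻¹
def gw : GG := gb⁻¹ * gv * gb⁻¹
def gx : GG := gs⁻¹ * gv * gt
def gu : GG := gs⁻¹ * gw * gt

/-- The positive generators followed by their inverses. -/
def gen0 (d : Fin 14) : GG :=
  match d with
  | 0 => gb
  | 1 => gs
  | 2 => gt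
  | 3 => gv
  | 4 => gw
  | 5 => gx
  | 6 => gu
  | 7 => gb⁻¹
  | 8 => gs⁻¹
  | 9 => gt⁻¹
  | 10 => gv⁻¹
  | 11 => gw⁻¹
  | 12 => gx⁻¹
  | 13 => gu⁻¹

lemma gen0_inv (d : Fin 14) : gen0 (tinv d) = (gen0 d)⁻¹ := by
  fin_cases d <;> simp [gen0, tinv]

lemma rel_bt : gb * gt = gs * gb := by
  have := tb
  rw [gs, mul_assoc, this]; group

lemma rel_st : gs * gt = gt * gs := by
  have := ta
  have h2 : gt * ga⁻¹ = ga⁻¹ * gt := by
    rw [eq_inv_mul_iff_mul_eq, ← mul_assoc, ← this, mul_inv_cancel_right]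
  rw [gs, ← mul_assoc, h2]

lemma rel_key : gv * gt * gb⁻¹ = gb * gt * gv := by
  have := tc
  have h2 : gt = gb * gc * gb * gt * gc⁻¹ := by rw [← this]; group
  calc gv * gt * gb⁻¹ = gc⁻¹ * gb⁻¹ * (gb * gc * gb * gt * gc⁻¹) * gb⁻¹ := by rw [← h2, gv]
    _ = gb * gt * gv := by rw [gv]; group

lemma gen0_sq (i : Fin 8) : gen0 (sqs i).1 * gen0 (sqs i).2.1 =
    gen0 (sqs i).2.2.1 * gen0 (sqs i).2.2.2 := by
  have hsi : gs⁻¹ = gt * gs⁻¹ * gt⁻¹ := by
    have := rel_st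
    have h2 : gs = gt * gs * gt⁻¹ := by rw [← this]; group
    calc gs⁻¹ = (gt * gs * gt⁻¹)⁻¹ := by rw [← h2]
      _ = gt * gs⁻¹ * gt⁻¹ := by group
  fin_cases i
  · exact rel_bt
  · exact rel_st
  · show gv * gb⁻¹ = gb * gw
    rw [gw]; group
  · show gw * gs = gt * gv
    -- w s = b⁻¹ v b⁻¹ s = b⁻¹ v t b⁻¹ = t v
    have h1 : gb⁻¹ * gs = gt * gb⁻¹ := by
      rw [inv_mul_eq_iff_eq_mul, ← mul_assoc, rel_bt, mul_inv_cancel_right]
    calc gw * gs = gb⁻¹ * gv * (gb⁻¹ * gs) := by rw [gw]; group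
      _ = gb⁻¹ * (gv * gt * gb⁻¹) := by rw [h1]; group
      _ = gt * gv := by rw [rel_key]; group
  · show gv * gt = gs * gx
    rw [gx]; group
  · show gx * gb⁻¹ = gb * gv
    calc gx * gb⁻¹ = gs⁻¹ * (gv * gt * gb⁻¹) := by rw [gx]; group
      _ = gs⁻¹ * (gb * gt) * gv := by rw [rel_key]; group
      _ = gb * gv := by rw [rel_bt]; group
  · show gw * gt = gs * gu
    rw [gu]; group
  · show gu * gs = gt * gx
    have h1 : gb⁻¹ * gs = gt * gb⁻¹ := by
      rw [inv_mul_eq_iff_eq_mul, ← mul_assoc, rel_bt, mul_inv_cancel_right]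
    have h2 : gw * gs = gt * gv := by
      calc gw * gs = gb⁻¹ * gv * (gb⁻¹ * gs) := by rw [gw]; group
        _ = gb⁻¹ * (gv * gt * gb⁻¹) := by rw [h1]; group
        _ = gt * gv := by rw [rel_key]; group
    calc gu * gs = gs⁻¹ * gw * (gt * gs) := by rw [gu]; group
      _ = gs⁻¹ * gw * (gs * gt) := by rw [rel_st]
      _ = gs⁻¹ * (gw * gs) * gt := by group
      _ = gs⁻¹ * gt * gv * gt := by rw [h2]; group
      _ = gt * gs⁻¹ * gv * gt := by
          have : gs⁻¹ * gt = gt * gs⁻¹ := by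
            rw [inv_mul_eq_iff_eq_mul, ← mul_assoc, rel_st, mul_inv_cancel_right]
          rw [this]
      _ = gt * gx := by rw [gx]; group

/-- The local data of the mapping torus. -/
def L0 : LocalData (Fin 14) GG := mkData gen0 gen0_inv gen0_sq

/-! ### A finite quotient separating the vertices around `1` -/

abbrev V7 : Type := ZMod 7 × ZMod 7 × ZMod 7

def pA : Equiv.Perm V7 where
  toFun p := (4 * p.1, 5 * p.2.1, 6 * p.2.2)
  invFun p := (2 * p.1, 3 * p.2.1, 6 * p.2.2)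
  left_inv := by unfold Function.LeftInverse; decide +kernel
  right_inv := by unfold Function.RightInverse Function.LeftInverse; decide +kernel

def pB : Equiv.Perm V7 where
  toFun p := (6 * p.2.2, p.1, p.2.1)
  invFun p := (p.2.1, p.2.2, 6 * p.1)
  left_inv := by unfold Function.LeftInverse; decide +kernel
  right_inv := by unfold Function.RightInverse Function.LeftInverse; decide +kernel

def pC : Equiv.Perm V7 where
  toFun p := (p.1 + 4 * p.2.1 + 6 * p.2.2, 5 * p.1 + 6 * p.2.1 + p.2.2,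
    3 * p.1 + 6 * p.2.1 + 2 * p.2.2)
  invFun p := (6 * p.1 + 3 * p.2.2, 5 * p.2.1 + p.2.2, 5 * p.1 + 6 * p.2.1)
  left_inv := by unfold Function.LeftInverse; decide +kernel
  right_inv := by unfold Function.RightInverse Function.LeftInverse; decide +kernel

def pT : Equiv.Perm V7 where
  toFun p := (p.1, 5 * p.2.1, 2 * p.2.2)
  invFun p := (p.1, 3 * p.2.1, 4 * p.2.2)
  left_inv := by unfold Function.LeftInverse; decide +kernel
  right_inv := by unfold Function.RightInverse Function.LeftInverse; decide +kernel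

lemma pTA : pT * pA = pA * pT := by
  apply Equiv.ext; decide +kernel

lemma pTB : pT * pB = pA * pB * pT := by
  apply Equiv.ext; decide +kernel

lemma pTC : pT * pC = pB * pC * pB * pT := by
  apply Equiv.ext; decide +kernel

def pS : Equiv.Perm V7 := pA⁻¹ * pT
def pV : Equiv.Perm V7 := pC⁻¹ * pB⁻¹
def pW : Equiv.Perm V7 := pB⁻¹ * pV * pB⁻¹
def pX : Equiv.Perm V7 := pS⁻¹ * pV * pT
def pU : Equiv.Perm V7 := pS⁻¹ * pW * pT

def genP (d : Fin 14) : Equiv.Perm V7 :=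
  match d with
  | 0 => pB
  | 1 => pS
  | 2 => pT
  | 3 => pV
  | 4 => pW
  | 5 => pX
  | 6 => pU
  | 7 => pB⁻¹
  | 8 => pS⁻¹
  | 9 => pT⁻¹
  | 10 => pV⁻¹
  | 11 => pW⁻¹
  | 12 => pX⁻¹
  | 13 => pU⁻¹

def L63 : List (List (Fin 14)) :=
  [[], [0], [1], [2], [3], [4], [5], [6], [7], [8], [9], [10], [11], [12], [13], [0, 1], [0, 3],
  [0, 5], [0, 8], [0, 10], [0, 11], [1, 2], [1, 3], [1, 4], [1, 9], [1, 11], [1, 13], [2, 4],
  [2, 6], [2, 7], [2, 8], [2, 10], [2, 11], [3, 7], [3, 9], [4, 7], [5, 8], [5, 9], [6, 8], [7, 9],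
  [7, 10], [7, 12], [8, 9], [8, 10], [8, 12], [9, 12], [9, 13], [0, 1, 3], [0, 1, 11], [0, 5, 8],
  [0, 8, 10], [1, 2, 4], [1, 2, 11], [1, 3, 9], [1, 9, 13], [2, 4, 7], [2, 6, 8], [2, 7, 10],
  [2, 8, 10], [3, 7, 9], [5, 8, 9], [7, 9, 12], [8, 9, 12]]

def keyN (l : List (Fin 14)) : ℕ :=
  ((xl genP tr l) (1, 1, 1)).1.val * 49 + ((xl genP tr l) (1, 1, 1)).2.1.val * 7 +
    ((xl genP tr l) (1, 1, 1)).2.2.val

lemma keys : L63.map keyN = [57, 302, 110, 86, 179, 95, 167, 128, 62, 206, 74, 180, 261, 315, 267,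
    257, 160, 172, 157, 45, 123, 136, 310, 227, 125, 326, 266, 190, 173, 89, 237, 301, 254, 144,
    79, 228, 278, 134, 243, 73, 114, 235, 222, 314, 318, 188, 288, 321, 43, 256, 75, 319, 252,
    236, 331, 113, 290, 225, 307, 233, 230, 141, 339] := by
  decide +kernel

lemma keys_nodup : (L63.map keyN).Nodup := by
  rw [keys]; decide +kernel

lemma mem_L63_1 : ∀ a : Fin 14, [a] ∈ L63 := by decide +kernel

lemma mem_L63_2 : ∀ a b : Fin 14, a < b → tE a b → [a, b] ∈ L63 := by decide +kernel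

lemma mem_L63_3 : ∀ a b : Fin 14, a < b → tE a b → ∀ c, b < c → tE a c → tE b c →
    [a, b, c] ∈ L63 := by decide +kernel

lemma no_four : ∀ a b : Fin 14, a < b → tE a b → ∀ c, b < c → tE a c → tE b c →
    ∀ d, c < d → tE a d → tE b d → tE c d → False := by decide +kernel

lemma mem_L63 (l : List (Fin 14)) (h : l.Pairwise (fun a b => a < b ∧ tE a b)) : l ∈ L63 := by
  match l, h with
  | [], _ => decide
  | [a], _ => exact mem_L63_1 a
  | [a, b], h =>
    simp only [List.pairwise_cons, List.mem_cons, List.not_mem_nil, or_false] at h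
    exact mem_L63_2 a b (h.1 b rfl).1 (h.1 b rfl).2
  | [a, b, c], h =>
    simp only [List.pairwise_cons, List.mem_cons, List.not_mem_nil, or_false] at h
    have h1 := h.1 b (Or.inl rfl)
    have h2 := h.1 c (Or.inr rfl)
    have h3 := h.2.1 c rfl
    exact mem_L63_3 a b h1.1 h1.2 c h3.1 h2.2 h3.2
  | a :: b :: c :: d :: l, h =>
    exfalso
    simp only [List.pairwise_cons, List.mem_cons] at h
    obtain ⟨ha, hb, hc, _⟩ := h
    have h1 := ha b (Or.inl rfl)
    have h2 := ha c (Or.inr (Or.inl rfl))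
    have h3 := ha d (Or.inr (Or.inr (Or.inl rfl)))
    have h4 := hb c (Or.inl rfl)
    have h5 := hb d (Or.inr (Or.inl rfl))
    have h6 := hc d (Or.inl rfl)
    exact no_four a b h1.1 h1.2 c h4.1 h2.2 h4.2 d h6.1 h3.2 h5.2 h6.2

lemma exists_rep : ∃ f : GG →* Equiv.Perm V7, ∀ d, f (gen0 d) = genP d := by
  obtain ⟨f, h1, h2, h3, h4⟩ := exists_lift pA pB pC pT pTA pTB pTC
  have hs : f gs = pS := by rw [gs, map_mul, map_inv, h1, h4, pS]
  have hv : f gv = pV := by rw [gv, map_mul, map_inv, map_inv, h2, h3, pV]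
  have hw : f gw = pW := by rw [gw, map_mul, map_mul, map_inv, h2, hv, pW]
  have hx : f gx = pX := by rw [gx, map_mul, map_mul, map_inv, hs, hv, h4, pX]
  have hu : f gu = pU := by rw [gu, map_mul, map_mul, map_inv, hs, hw, h4, pU]
  refine ⟨f, fun d => ?_⟩
  fin_cases d
  · exact h2
  · exact hs
  · exact h4
  · exact hv
  · exact hw
  · exact hx
  · exact hu
  · show f gb⁻¹ = pB⁻¹
    rw [map_inv, h2]
  · show f gs⁻¹ = pS⁻¹
    rw [map_inv, hs]
  · show f gt⁻¹ = pT⁻¹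
    rw [map_inv, h4]
  · show f gv⁻¹ = pV⁻¹
    rw [map_inv, hv]
  · show f gw⁻¹ = pW⁻¹
    rw [map_inv, hw]
  · show f gx⁻¹ = pX⁻¹
    rw [map_inv, hx]
  · show f gu⁻¹ = pU⁻¹
    rw [map_inv, hu]

lemma sort_mem (α : Finset (Fin 14)) (hα : L0.Clique α) : α.sort (· ≤ ·) ∈ L63 := by
  apply mem_L63
  have h1 : (α.sort (· ≤ ·)).Pairwise (· < ·) := Finset.sortedLT_sort α |>.pairwise
  refine h1.imp_of_mem fun {a b} ha hb hab => ⟨hab, ?_⟩
  exact hα a (by simpa using ha) b (by simpa using hb) hab.ne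

lemma L0_XInj : L0.XInj := by
  intro α β hα hβ h
  obtain ⟨f, hf⟩ := exists_rep
  have hX : ∀ γ : Finset (Fin 14), L0.Clique γ →
      f (L0.X γ) = xl genP tr (γ.sort (· ≤ ·)) := by
    intro γ hγ
    rw [L0.X_eq_of_perm hγ (Finset.sort_perm_toList (s := γ) (r := (· ≤ ·))).symm, map_xl]
    have : (fun d => f (L0.gen d)) = genP := by
      funext d; exact hf d
    rw [this]
    rfl
  have h1 := hX α hα
  have h2 := hX β hβ
  rw [h, h2] at h1
  have hk : keyN (β.sort (· ≤ ·)) = keyN (α.sort (· ≤ ·)) := by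
    unfold keyN; rw [h1]
  have := List.inj_on_of_nodup_map keys_nodup (sort_mem β hβ) (sort_mem α hα) hk
  rw [← Finset.sort_toFinset (s := α) (r := (· ≤ ·)), ← this, Finset.sort_toFinset]

end Pool.Agent.W_MP_56a3d2_al
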