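import Pool.Agent.W_MP_56a3d2_al.Defs

set_option autoImplicit false
set_option linter.unusedSectionVars false

/-! Words attached to cliques of the link. -/

namespace Pool.Agent.W_MP_56a3d2_al

section words

variable {D G : Type} [Monoid G]

/-- auxiliary recursion for `xl` -/
def xa (gen : D → G) (r : D → D → D) : (D → D) → List D → G
  | _, [] => 1
  | f, d :: l => gen (f d) * xa gen r (fun e => r (f d) (f e)) l

/-- The element reached from `1` by crossing the directions in `l` one after the other. -/
def xl (gen : D → G) (r : D → D → D) (l : List D) : G := xa gen r id l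

lemma xa_comp (gen : D → G) (r : D → D → D) (l : List D) :
    ∀ f g : D → D, xa gen r (g ∘ f) l = xa gen r g (l.map f) := by
  induction l with
  | nil => intro f g; rfl
  | cons d l ih =>
    intro f g
    simp only [xa, List.map_cons, Function.comp]
    congr 1
    exact ih f (fun e => r (g (f d)) (g e))

@[simp] lemma xl_nil (gen : D → G) (r : D → D → D) : xl gen r [] = 1 := rfl

lemma xl_cons (gen : D → G) (r : D → D → D) (d : D) (l : List D) :
    xl gen r (d :: l) = gen d * xl gen r (l.map (r d)) := by
  simp only [xl, xa, id]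
  congr 1
  exact xa_comp gen r l (r d) id

lemma map_xa {H : Type} [Monoid H] (ρ : G →* H) (gen : D → G) (r : D → D → D) (l : List D) :
    ∀ f : D → D, ρ (xa gen r f l) = xa (fun d => ρ (gen d)) r f l := by
  induction l with
  | nil => intro f; simp [xa]
  | cons d l ih => intro f; simp [xa, ih]

lemma map_xl {H : Type} [Monoid H] (ρ : G →* H) (gen : D → G) (r : D → D → D) (l : List D) :
    ρ (xl gen r l) = xl (fun d => ρ (gen d)) r l := map_xa ρ gen r l id

end words

/-- The local structure of a group acting simply transitively on the vertices of a cube complex: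
`D` is the set of directions at the base vertex, `E` the adjacency in the link, `r d e` the
direction at the end of `d` parallel to `e`. -/
structure LocalData (D G : Type) [Group G] where
  E : D → D → Prop
  inv : D → D
  r : D → D → D
  gen : D → G
  symm : ∀ {d e}, E d e → E e d
  irrefl : ∀ d, ¬ E d d
  square : ∀ {d e}, E d e → gen d * gen (r d e) = gen e * gen (r e d)
  r_E : ∀ {d e f}, E d e → E d f → E e f → E (r d e) (r d f)
  cocycle : ∀ {d e f}, E d e → E d f → E e f → r (r d e) (r d f) = r (r e d) (r e f)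
  gen_inv : ∀ d, gen (inv d) = (gen d)⁻¹
  inv_E : ∀ {d e}, E d e → E (inv d) (r d e)
  inv_r : ∀ {d e}, E d e → r (inv d) (r d e) = e

namespace LocalData

variable {D G : Type} [Group G] (L : LocalData D G)

lemma ne_of_E {d e : D} (h : L.E d e) : d ≠ e := fun h' => L.irrefl d (by rw [← h'] at h; exact h)

/-- perm-invariance of `xl` on cliques -/
lemma xl_perm_aux {l l' : List D} (h : l.Perm l') : ∀ f : D → D, (l.map f).Pairwise L.E →
    xl L.gen L.r (l.map f) = xl L.gen L.r (l'.map f) := by
  induction h with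
  | nil => intro f _; rfl
  | @cons d l l' _ ih =>
    intro f hf
    rw [List.map_cons, List.map_cons, xl_cons, xl_cons, List.map_map, List.map_map]
    rw [List.map_cons, List.pairwise_cons] at hf
    rw [ih (L.r (f d) ∘ f)]
    rw [← List.map_map, List.pairwise_map]
    exact hf.2.imp_of_mem fun {a b} ha hb hab => L.r_E (hf.1 a ha) (hf.1 b hb) hab
  | swap d e l =>
    intro f hf
    simp only [List.map_cons, xl_cons, List.map_map, ← mul_assoc]
    simp only [List.map_cons, List.pairwise_cons, List.mem_cons, List.mem_map] at hf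
    obtain ⟨h1, h2, h3⟩ := hf
    have hed : L.E (f e) (f d) := h1 _ (Or.inl rfl)
    rw [L.square hed]
    congr 2
    apply List.map_congr_left
    intro z hz
    simp only [Function.comp]
    exact L.cocycle hed (h1 _ (Or.inr ⟨z, hz, rfl⟩)) (h2 _ ⟨z, hz, rfl⟩)
  | @trans l₁ l₂ l₃ h12 _ ih1 ih2 =>
    intro f hf
    rw [ih1 f hf, ih2 f]
    exact ((h12.map f).pairwise_iff (fun {a b} h => L.symm h)).1 hf

lemma xl_perm {l l' : List D} (h : l.Perm l') (hl : l.Pairwise L.E) :
    xl L.gen L.r l = xl L.gen L.r l' := by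
  have := L.xl_perm_aux h id
  simpa using this (by simpa using hl)

variable [DecidableEq D]

/-- Cliques of the link. -/
def Clique (α : Finset D) : Prop := ∀ d ∈ α, ∀ e ∈ α, d ≠ e → L.E d e

lemma Clique.mono {L : LocalData D G} {α β : Finset D} (h : L.Clique α) (hβ : β ⊆ α) :
    L.Clique β := fun d hd e he hde => h d (hβ hd) e (hβ he) hde

lemma Clique.pairwise {L : LocalData D G} {α : Finset D} (h : L.Clique α) :
    α.toList.Pairwise L.E := by
  apply List.Nodup.pairwise_of_forall_ne α.nodup_toList
  intro a ha b hb hab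
  exact h a (Finset.mem_toList.1 ha) b (Finset.mem_toList.1 hb) hab

/-- The vertex opposite to `1` in the cube spanned by the clique `α`. -/
noncomputable def X (α : Finset D) : G := xl L.gen L.r α.toList

@[simp] lemma X_empty : L.X ∅ = 1 := by simp [X]

lemma X_eq_of_perm {α : Finset D} (hα : L.Clique α) {l : List D} (h : α.toList.Perm l) :
    L.X α = xl L.gen L.r l := L.xl_perm h hα.pairwise

lemma image_r_injOn {d : D} {α : Finset D} (h : L.Clique (insert d α)) (hd : d ∉ α) :
    Set.InjOn (L.r d) α := by
  intro a ha b hb hab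
  by_contra hne
  have h1 : L.E d a := h d (Finset.mem_insert_self _ _) a (Finset.mem_insert_of_mem ha)
    (fun h' => hd (h' ▸ ha))
  have h2 : L.E d b := h d (Finset.mem_insert_self _ _) b (Finset.mem_insert_of_mem hb)
    (fun h' => hd (h' ▸ hb))
  have h3 : L.E a b := h a (Finset.mem_insert_of_mem ha) b (Finset.mem_insert_of_mem hb) hne
  have := L.r_E h1 h2 h3
  rw [hab] at this
  exact L.irrefl _ this

lemma X_insert {d : D} {α : Finset D} (h : L.Clique (insert d α)) (hd : d ∉ α) :
    L.X (insert d α) = L.gen d * L.X (α.image (L.r d)) := by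
  have hinj := L.image_r_injOn h hd
  have hcl : L.Clique (α.image (L.r d)) := by
    intro a ha b hb hab
    rw [Finset.mem_image] at ha hb
    obtain ⟨a', ha', rfl⟩ := ha
    obtain ⟨b', hb', rfl⟩ := hb
    refine L.r_E (h d (Finset.mem_insert_self _ _) a' (Finset.mem_insert_of_mem ha')
      (fun h' => hd (h' ▸ ha'))) (h d (Finset.mem_insert_self _ _) b' (Finset.mem_insert_of_mem hb')
      (fun h' => hd (h' ▸ hb'))) (h a' (Finset.mem_insert_of_mem ha') b'
      (Finset.mem_insert_of_mem hb') (fun h' => hab (by rw [h'])))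
  rw [L.X_eq_of_perm h (Finset.toList_insert hd), xl_cons]
  congr 1
  symm
  apply L.X_eq_of_perm hcl
  apply (List.perm_ext_iff_of_nodup (Finset.nodup_toList _) ?_).2
  · intro a; simp
  · apply List.Nodup.map_on _ (Finset.nodup_toList _)
    intro x hx y hy hxy
    exact hinj (by simpa using hx) (by simpa using hy) hxy

lemma X_singleton (d : D) : L.X {d} = L.gen d := by
  have := L.X_insert (d := d) (α := ∅) (by
    intro a ha b hb hab
    simp at ha hb
    exact absurd (ha.trans hb.symm) hab) (by simp)
  simpa using this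

/-- Changing the base vertex across `d`. -/
def flip (d e : D) : D := if e = d then L.inv d else L.r d e

@[simp] lemma flip_self (d : D) : L.flip d d = L.inv d := by simp [flip]

lemma flip_of_ne {d e : D} (h : e ≠ d) : L.flip d e = L.r d e := by simp [flip, h]

lemma flip_E {α : Finset D} (hα : L.Clique α) {d : D} (hd : d ∈ α) {a b : D} (ha : a ∈ α)
    (hb : b ∈ α) (hab : a ≠ b) : L.E (L.flip d a) (L.flip d b) := by
  by_cases had : a = d
  · subst had
    rw [flip_self, flip_of_ne _ hab.symm]
    exact L.inv_E (hα _ hd _ hb hab)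
  · by_cases hbd : b = d
    · subst hbd
      rw [flip_self, flip_of_ne _ had]
      exact L.symm (L.inv_E (hα _ hd _ ha hab.symm))
    · rw [flip_of_ne _ had, flip_of_ne _ hbd]
      exact L.r_E (hα _ hd _ ha (Ne.symm had)) (hα _ hd _ hb (Ne.symm hbd)) (hα _ ha _ hb hab)

lemma flip_injOn {α : Finset D} (hα : L.Clique α) {d : D} (hd : d ∈ α) :
    Set.InjOn (L.flip d) α := by
  intro a ha b hb hab
  by_contra hne
  exact L.ne_of_E (L.flip_E hα hd ha hb hne) hab

lemma flip_clique {α : Finset D} (hα : L.Clique α) {d : D} (hd : d ∈ α) :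
    L.Clique (α.image (L.flip d)) := by
  intro a ha b hb hab
  rw [Finset.mem_image] at ha hb
  obtain ⟨a', ha', rfl⟩ := ha
  obtain ⟨b', hb', rfl⟩ := hb
  exact L.flip_E hα hd ha' hb' (fun h => hab (by rw [h]))

lemma flip_X {α : Finset D} (hα : L.Clique α) {d : D} (hd : d ∈ α) {γ : Finset D} (hγ : γ ⊆ α) :
    L.gen d * L.X (γ.image (L.flip d)) = L.X (symmDiff {d} γ) := by
  by_cases hdγ : d ∈ γ
  · obtain ⟨γ₀, hγ₀, rfl⟩ : ∃ γ₀, d ∉ γ₀ ∧ insert d γ₀ = γ :=
      ⟨γ.erase d, by simp, Finset.insert_erase hdγ⟩
    have hsd : symmDiff {d} (insert d γ₀) = γ₀ := by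
      ext x
      simp only [Finset.mem_symmDiff, Finset.mem_singleton, Finset.mem_insert]
      by_cases hx : x = d
      · subst hx; simp [hγ₀]
      · simp [hx]
    rw [hsd]
    have hcl : L.Clique (insert d γ₀) := hα.mono hγ
    have himg : (insert d γ₀).image (L.flip d) = insert (L.inv d) (γ₀.image (L.r d)) := by
      rw [Finset.image_insert, flip_self]
      congr 1
      apply Finset.image_congr
      intro x hx
      exact L.flip_of_ne (fun h => hγ₀ (h ▸ hx))
    have hdE : ∀ x ∈ γ₀, L.E d x := fun x hx => hcl d (Finset.mem_insert_self _ _) x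
      (Finset.mem_insert_of_mem hx) (fun h => hγ₀ (h ▸ hx))
    have hnot : L.inv d ∉ γ₀.image (L.r d) := by
      intro hmem
      rw [Finset.mem_image] at hmem
      obtain ⟨x, hx, hxe⟩ := hmem
      exact L.ne_of_E (L.inv_E (hdE x hx)) hxe.symm
    have hcl' : L.Clique (insert (L.inv d) (γ₀.image (L.r d))) := by
      rw [← himg]
      exact (L.flip_clique hα hd).mono (Finset.image_subset_image hγ)
    rw [himg, L.X_insert hcl' hnot, L.gen_inv, mul_inv_cancel_left, Finset.image_image]
    congr 1
    have : γ₀.image (L.r (L.inv d) ∘ L.r d) = γ₀.image id := by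
      apply Finset.image_congr
      intro x hx
      exact L.inv_r (hdE x hx)
    rw [this, Finset.image_id]
  · have hsd : symmDiff {d} γ = insert d γ := by
      ext x
      simp only [Finset.mem_symmDiff, Finset.mem_singleton, Finset.mem_insert]
      by_cases hx : x = d
      · subst hx; simp [hdγ]
      · simp [hx]
    have himg : γ.image (L.flip d) = γ.image (L.r d) := by
      apply Finset.image_congr
      intro x hx
      exact L.flip_of_ne (fun h => hdγ (h ▸ hx))
    rw [hsd, himg, L.X_insert (hα.mono (Finset.insert_subset hd hγ)) hdγ]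

/-- Changing the base vertex to an arbitrary vertex of a cube. -/
lemma rebase (n : ℕ) : ∀ α β : Finset D, L.Clique α → β ⊆ α → β.card = n →
    ∃ ρ : D → D, Set.InjOn ρ α ∧ L.Clique (α.image ρ) ∧
      ∀ γ ⊆ α, L.X β * L.X (γ.image ρ) = L.X (symmDiff β γ) := by
  induction n with
  | zero =>
    intro α β hα _ hcard
    rw [Finset.card_eq_zero] at hcard
    subst hcard
    refine ⟨id, fun _ _ _ _ h => h, by simpa using hα, fun γ _ => ?_⟩
    have : symmDiff (∅ : Finset D) γ = γ := by
      ext x; simp [Finset.mem_symmDiff]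
    simp [this]
  | succ n ih =>
    intro α β hα hβ hcard
    obtain ⟨d, hd⟩ : β.Nonempty := by
      rw [← Finset.card_pos]; omega
    obtain ⟨β₀, hβ₀, rfl⟩ : ∃ β₀, d ∉ β₀ ∧ insert d β₀ = β :=
      ⟨β.erase d, by simp, Finset.insert_erase hd⟩
    have hdα : d ∈ α := hβ hd
    have hβ₀α : β₀ ⊆ α := (Finset.subset_insert _ _).trans hβ
    have hinj := L.flip_injOn hα hdα
    obtain ⟨ρ, hρinj, hρcl, hρ⟩ := ih (α.image (L.flip d)) (β₀.image (L.flip d))
      (L.flip_clique hα hdα) (Finset.image_subset_image hβ₀α) (by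
        rw [Finset.card_image_of_injOn (hinj.mono (by exact_mod_cast hβ₀α))]
        rw [Finset.card_insert_of_notMem hβ₀] at hcard
        omega)
    have hsd0 : insert d β₀ = symmDiff {d} β₀ := by
      ext x
      simp only [Finset.mem_symmDiff, Finset.mem_singleton, Finset.mem_insert]
      by_cases hx : x = d
      · subst hx; simp [hβ₀]
      · simp [hx]
    refine ⟨ρ ∘ L.flip d, ?_, ?_, ?_⟩
    · intro a ha b hb hab
      apply hinj ha hb
      exact hρinj (by simpa using ⟨a, ha, rfl⟩) (by simpa using ⟨b, hb, rfl⟩) hab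
    · rw [← Finset.image_image]; exact hρcl
    · intro γ hγ
      rw [hsd0, ← L.flip_X hα hdα hβ₀α, ← Finset.image_image, mul_assoc,
        hρ _ (Finset.image_subset_image hγ)]
      have himg : symmDiff (β₀.image (L.flip d)) (γ.image (L.flip d)) =
          (symmDiff β₀ γ).image (L.flip d) := by
        ext x
        simp only [Finset.mem_symmDiff, Finset.mem_image]
        constructor
        · rintro (⟨⟨a, ha, rfl⟩, hx⟩ | ⟨⟨a, ha, rfl⟩, hx⟩)
          · exact ⟨a, Or.inl ⟨ha, fun h => hx ⟨a, h, rfl⟩⟩, rfl⟩
          · exact ⟨a, Or.inr ⟨ha, fun h => hx ⟨a, h, rfl⟩⟩, rfl⟩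
        · rintro ⟨a, (⟨ha, ha'⟩ | ⟨ha, ha'⟩), rfl⟩
          · refine Or.inl ⟨⟨a, ha, rfl⟩, ?_⟩
            rintro ⟨b, hb, hab⟩
            exact ha' (hinj (hγ hb) (hβ₀α ha) hab ▸ hb)
          · refine Or.inr ⟨⟨a, ha, rfl⟩, ?_⟩
            rintro ⟨b, hb, hab⟩
            exact ha' (hinj (hβ₀α hb) (hγ ha) hab ▸ hb)
      have hsub : symmDiff β₀ γ ⊆ α := by
        intro x hx
        rw [Finset.mem_symmDiff] at hx
        rcases hx with hx | hx
        · exact hβ₀α hx.1
        · exact hγ hx.1
      rw [himg, L.flip_X hα hdα hsub, ← symmDiff_assoc]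

end LocalData

end Pool.Agent.W_MP_56a3d2_al
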